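import Pool.Agent.Helper37.KDB.Extra

/-! Project KDB, piece P11: the mass of the rings in an own window. -/

set_option autoImplicit false

namespace KDB.I.P11

open MeasureTheory
open scoped ENNReal

variable (p : Par)

lemma trap_ge (u : ℝ) (h0 : 0 ≤ u) (h1 : u ≤ 1) : 4 * u * (1 - u) ≤ Par.trap u := by
  unfold Par.trap
  refine le_max_of_le_right (le_min ?_ (le_min ?_ ?_))
  · nlinarith [sq_nonneg (2 * u - 1)]
  · nlinarith
  · nlinarith

lemma sum_one (n : ℕ) : ∑ r ∈ Finset.range n, (r : ℝ) = n * (n - 1) / 2 := by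
  induction n with
  | zero => simp
  | succ n ih => rw [Finset.sum_range_succ, ih]; push_cast; ring

lemma sum_two (n : ℕ) : ∑ r ∈ Finset.range n, (r : ℝ) ^ 2 = n * (n - 1) * (2 * n - 1) / 6 := by
  induction n with
  | zero => simp
  | succ n ih => rw [Finset.sum_range_succ, ih]; push_cast; ring

lemma sum_trap (W : ℕ) (hW : 2 ≤ W) : (W : ℝ) / 2 ≤ ∑ r ∈ Finset.range W, Par.trap (r / W) := by
  have hW0 : (0 : ℝ) < W := by positivity
  have hW2 : (2 : ℝ) ≤ W := by exact_mod_cast hW
  have h1 : ∑ r ∈ Finset.range W, (4 * ((r : ℝ) / W) * (1 - (r : ℝ) / W)) ≤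
      ∑ r ∈ Finset.range W, Par.trap (r / W) := by
    refine Finset.sum_le_sum fun r hr => trap_ge _ (by positivity) ?_
    rw [div_le_one hW0]
    exact_mod_cast (Finset.mem_range.1 hr).le
  refine le_trans ?_ h1
  have h2 : ∑ r ∈ Finset.range W, (4 * ((r : ℝ) / W) * (1 - (r : ℝ) / W)) =
      4 / W * ∑ r ∈ Finset.range W, (r : ℝ) - 4 / W ^ 2 * ∑ r ∈ Finset.range W, (r : ℝ) ^ 2 := by
    rw [Finset.mul_sum, Finset.mul_sum, ← Finset.sum_sub_distrib]
    refine Finset.sum_congr rfl fun r _ => ?_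
    field_simp
  rw [h2, sum_one, sum_two]
  have h3 : 4 / (W : ℝ) * (W * (W - 1) / 2) - 4 / W ^ 2 * (W * (W - 1) * (2 * W - 1) / 6) =
      2 / 3 * (W - 1 / W) := by
    field_simp
    ring
  rw [h3]
  have h4 : 1 / (W : ℝ) ≤ W / 4 := by
    rw [div_le_div_iff₀ hW0 (by norm_num)]
    nlinarith
  linarith

/-- mass of the rings in an own window -/
theorem ring_lower (hp : p.Reg) (hH : p.Hok) (i T : ℕ) (hi : i < p.n)
    (hT : T % p.tau (i + 1) = p.L / 2 * p.tau i) (hT1 : p.tau i ≤ T) :
    p.mu / 2 ≤ ∑ j ∈ Finset.Ico (T - p.tau i) (T - p.tau i + p.W i), p.pring i j ∧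
      p.mu / 2 ≤ ∑ j ∈ Finset.Ico T (T + p.W i), p.pring i j := by
  have hmu : 300 ≤ p.mu := by
    have := hp.r1
    have := hp.r2
    linarith
  have hH1 : 1 ≤ p.H := hp.hH
  have hL : 1000 ≤ p.L := hp.hL
  have hWpos : 0 < p.W i := by unfold Par.W; positivity
  have hWr : (0 : ℝ) < p.W i := by exact_mod_cast hWpos
  -- the window is long
  have hkap : 0 ≤ p.kap := by
    unfold Par.kap
    refine integral_nonneg fun w => ?_
    change 0 ≤ p.kd w
    unfold Par.kd
    split_ifs
    · refine mul_nonneg hp.hlam.le (Real.rpow_nonneg ?_ _)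
      exact Real.sqrt_nonneg _
    · exact le_rfl
  have hh : 0 ≤ p.h := by unfold Par.h; positivity
  have hle : p.mu / p.W i ≤ 1 / 2 := by
    have h1 := hH.h1
    have h2 : p.mu / p.W i ≤ ∑ k ∈ Finset.range p.n, p.mu / p.W k :=
      Finset.single_le_sum (f := fun k => p.mu / p.W k)
        (fun k _ => div_nonneg (by linarith) (Nat.cast_nonneg _)) (Finset.mem_range.2 hi)
    have h3 := mul_nonneg hh hkap
    linarith
  have hW2 : 2 ≤ p.W i := by
    rw [div_le_iff₀ hWr] at hle
    have : (2 : ℝ) ≤ p.W i := by linarith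
    exact_mod_cast this
  -- arithmetic of the phases
  have hWtau : p.W i ≤ p.tau i := by
    unfold Par.W Par.tau
    exact Nat.mul_le_mul_left _ (Nat.pow_le_pow_right (by omega) (by omega))
  have htau : p.tau (i + 1) = p.L * p.tau i := by
    unfold Par.tau
    rw [show i + 1 + p.q = (i + p.q) + 1 by omega, pow_succ]
    ring
  have hL2 : p.L / 2 ≤ p.L := Nat.div_le_self _ _
  have hL3 : 1 ≤ p.L / 2 := by omega
  have htp : 0 < p.tau i := lt_of_lt_of_le hWpos hWtau
  have hsplit : p.L / 2 * p.tau i = (p.L / 2 - 1) * p.tau i + p.tau i := by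
    rw [← Nat.succ_mul]
    congr 1
    omega
  have hbig : p.L / 2 * p.tau i + p.tau i ≤ p.tau (i + 1) := by
    rw [htau, ← Nat.succ_mul]
    exact Nat.mul_le_mul_right _ (by omega)
  have hdiv := Nat.div_add_mod T (p.tau (i + 1))
  rw [hT] at hdiv
  have hphA : ∀ r < p.W i, p.ph i (T - p.tau i + r) = (p.L / 2 - 1) * p.tau i + r := by
    intro r hr
    unfold Par.ph
    have h1 : T - p.tau i + r = p.tau (i + 1) * (T / p.tau (i + 1)) +
        ((p.L / 2 - 1) * p.tau i + r) := by omega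
    rw [h1, Nat.mul_add_mod, Nat.mod_eq_of_lt (by omega)]
  have hphB : ∀ r < p.W i, p.ph i (T + r) = p.L / 2 * p.tau i + r := by
    intro r hr
    unfold Par.ph
    have h1 : T + r = p.tau (i + 1) * (T / p.tau (i + 1)) + (p.L / 2 * p.tau i + r) := by omega
    rw [h1, Nat.mul_add_mod, Nat.mod_eq_of_lt (by omega)]
  have hchiA : ∀ r < p.W i, p.chi i (T - p.tau i + r) = Par.trap (r / p.W i) := by
    intro r hr
    have h1 : p.inA i (T - p.tau i + r) := by
      unfold Par.inA
      rw [hphA r hr]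
      omega
    unfold Par.chi
    rw [if_pos h1, hphA r hr]
    congr 2
    push_cast
    ring
  have hchiB : ∀ r < p.W i, p.chi i (T + r) = Par.trap (r / p.W i) := by
    intro r hr
    have h1 : ¬ p.inA i (T + r) := by
      unfold Par.inA
      rw [hphB r hr]
      omega
    have h2 : p.inB i (T + r) := by
      unfold Par.inB
      rw [hphB r hr]
      omega
    unfold Par.chi
    rw [if_neg h1, if_pos h2, hphB r hr]
    congr 2
    push_cast
    ring
  have hfin : p.mu / 2 ≤ ∑ r ∈ Finset.range (p.W i), p.mu * Par.trap (r / p.W i) / p.W i := by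
    rw [← Finset.sum_div, ← Finset.mul_sum, div_le_div_iff₀ (by norm_num) hWr]
    have h1 := sum_trap (p.W i) hW2
    have h2 : p.mu * ((p.W i : ℝ) / 2) ≤ p.mu * ∑ r ∈ Finset.range (p.W i),
        Par.trap (r / p.W i) := mul_le_mul_of_nonneg_left h1 (by linarith)
    linarith
  constructor
  · rw [Finset.sum_Ico_eq_sum_range, Nat.add_sub_cancel_left]
    refine hfin.trans (le_of_eq (Finset.sum_congr rfl fun r hr => ?_))
    unfold Par.pring
    rw [hchiA r (Finset.mem_range.1 hr)]
  · rw [Finset.sum_Ico_eq_sum_range, Nat.add_sub_cancel_left]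
    refine hfin.trans (le_of_eq (Finset.sum_congr rfl fun r hr => ?_))
    unfold Par.pring
    rw [hchiB r (Finset.mem_range.1 hr)]

end KDB.I.P11
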